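import Mathlib

/-!
# [H19 WE WB] a nontrivial relation with polynomial coefficients

For polynomials `B x`, `x` in a finite type `ι`, of degree `≤ M` over a field and `D + M + 1 < #ι (D + 1)` there are
polynomials `a x` of degree `≤ D`, not all zero, with `∑ a x B x = 0`: the unknown coefficients outnumber
the `D + M + 1` linear conditions.
-/

namespace Pool.Agent.H19.WE

open Finset Polynomial

private theorem finrank_degreeLT' (K : Type) [Field K] (n : ℕ) :
    Module.finrank K (Polynomial.degreeLT K n) = n := by
  rw [LinearEquiv.finrank_eq (Polynomial.degreeLTEquiv K n), Module.finrank_fin_fun]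

theorem exists_relation {K : Type} [Field K] {ι : Type} [Fintype ι] (B : ι → K[X]) (M D : ℕ)
    (hB : ∀ x, (B x).natDegree ≤ M) (hcard : D + M + 1 < Fintype.card ι * (D + 1)) :
    ∃ a : ι → K[X], (∀ x, (a x).natDegree ≤ D) ∧ (∃ x, a x ≠ 0) ∧ ∑ x, a x * B x = 0 := by
  classical
  have hfin : ∀ n, FiniteDimensional K (Polynomial.degreeLT K n) := fun n =>
    LinearEquiv.finiteDimensional (Polynomial.degreeLTEquiv K n).symm
  have := hfin (D + 1)
  have := hfin (D + M + 1)
  have hmem : ∀ v : ι → Polynomial.degreeLT K (D + 1),
      ∑ x, (v x : K[X]) * B x ∈ Polynomial.degreeLT K (D + M + 1) := by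
    intro v
    apply Submodule.sum_mem
    intro x _
    rw [Polynomial.mem_degreeLT]
    have hv := (v x).2
    rw [Polynomial.mem_degreeLT] at hv
    by_cases h0 : (v x : K[X]) * B x = 0
    · rw [h0, degree_zero]
      exact WithBot.bot_lt_coe _
    · rw [Polynomial.degree_eq_natDegree h0]
      have hv0 : (v x : K[X]) ≠ 0 := left_ne_zero_of_mul h0
      have hB0 : B x ≠ 0 := right_ne_zero_of_mul h0
      rw [natDegree_mul hv0 hB0]
      rw [Polynomial.degree_eq_natDegree hv0] at hv
      have h1 : (v x : K[X]).natDegree < D + 1 := by exact_mod_cast hv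
      have h2 := hB x
      have h3 : (v x : K[X]).natDegree + (B x).natDegree < D + M + 1 := by omega
      exact_mod_cast h3
  let L : (ι → Polynomial.degreeLT K (D + 1)) →ₗ[K] Polynomial.degreeLT K (D + M + 1) :=
    { toFun := fun v => ⟨∑ x, (v x : K[X]) * B x, hmem v⟩
      map_add' := by
        intro v w
        apply Subtype.ext
        simp only [Pi.add_apply, Submodule.coe_add, add_mul, Finset.sum_add_distrib]
      map_smul' := by
        intro c v
        apply Subtype.ext
        simp only [Pi.smul_apply, Submodule.coe_smul, smul_mul_assoc, Finset.smul_sum, RingHom.id_apply] }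
  have hker : L.ker ≠ ⊥ := by
    apply LinearMap.ker_ne_bot_of_finrank_lt
    rw [Module.finrank_pi_fintype, finrank_degreeLT']
    simp only [finrank_degreeLT', Finset.sum_const, Finset.card_univ, smul_eq_mul]
    exact hcard
  obtain ⟨v, hv, hv0⟩ := Submodule.exists_mem_ne_zero_of_ne_bot hker
  refine ⟨fun x => (v x : K[X]), ?_, ?_, ?_⟩
  · intro x
    show (v x : K[X]).natDegree ≤ D
    have h := (v x).2
    rw [Polynomial.mem_degreeLT] at h
    by_cases h0 : (v x : K[X]) = 0
    · rw [h0, natDegree_zero]
      exact Nat.zero_le _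
    · rw [Polynomial.degree_eq_natDegree h0] at h
      have : (v x : K[X]).natDegree < D + 1 := by exact_mod_cast h
      omega
  · by_contra hall
    push Not at hall
    apply hv0
    funext x
    exact Subtype.ext (hall x)
  · rw [LinearMap.mem_ker] at hv
    have := congrArg Subtype.val hv
    exact this

end Pool.Agent.H19.WE
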