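import Pool.Agent.H19.WE.WA
import Pool.Agent.H19.WE.WB

/-!
# [H19 WE WC] the number of `x ∈ F_q` with `Tr R(x) = t`

`|K| = q0²`, `q0 = p^μ`, `R = N / Q`, `deg Q = s`, `deg N = s + 1`, `t^p = t`: at most `q0² / p + (2 s + 1) q0`
elements `x` of `K` with `Q(x) ≠ 0` satisfy `∑_{i < 2 μ} R(x)^(p^i) = t`.

Let `g = ∑_{i < μ} R(x)^(p^i)`; then `g + g^q0 = t` and so `(t - g)^q0 = t - g^q0 = g`.  If
`∑ a_ij(x) x^(i q0) (t - g)^j = 0` identically (`WB`), then at such `x` (raise to the power `q0`, `x^(q0²) = x`)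
`∑ a_ij(x)^q0 x^i g^j = 0`: all these `x` are roots of `F ≠ 0` (`WA`), whose degree is at most
`q0 (w + s) + q0 + q0 s`.
-/

namespace Pool.Agent.H19.WE

open Finset Polynomial

variable {K : Type} [Field K]

private theorem eval_Gp (p μ : ℕ) (hp : 2 ≤ p) (N Q : K[X]) (x : K) (hx : Q.eval x ≠ 0) :
    (Gp p μ N Q).eval x =
      (∑ i ∈ range μ, (N.eval x / Q.eval x) ^ p ^ i) * Q.eval x ^ p ^ (μ - 1) := by
  unfold Gp
  rw [Polynomial.eval_finsetSum, Finset.sum_mul]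
  refine Finset.sum_congr rfl fun i hi => ?_
  rw [Finset.mem_range] at hi
  have hle : p ^ i ≤ p ^ (μ - 1) := Nat.pow_le_pow_right (by omega) (by omega)
  rw [eval_mul, eval_pow, eval_pow, div_pow]
  have h1 : Q.eval x ^ p ^ (μ - 1) = Q.eval x ^ p ^ i * Q.eval x ^ (p ^ (μ - 1) - p ^ i) := by
    rw [← pow_add]
    congr 1
    omega
  rw [h1]
  have h2 : Q.eval x ^ p ^ i ≠ 0 := pow_ne_zero _ hx
  field_simp

open Classical in
theorem count (p μ s : ℕ) [Fact p.Prime] [Fintype K] [CharP K p] (hμ : 1 ≤ μ)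
    (hK : Fintype.card K = (p ^ μ) ^ 2) (N Q : K[X]) (hN : N.natDegree = s + 1)
    (hQ : Q.natDegree = s) (hQ0 : Q ≠ 0) (t : K) (ht : t ^ p = t) :
    (Finset.univ.filter fun x : K => Q.eval x ≠ 0 ∧
      ∑ i ∈ range (2 * μ), (N.eval x / Q.eval x) ^ p ^ i = t).card ≤
      p ^ (μ - 1) * p ^ μ + (2 * s + 1) * p ^ μ := by
  have hp : p.Prime := Fact.out
  have hp2 : 2 ≤ p := hp.two_le
  set w := p ^ (μ - 1) with hw
  have hw1 : 1 ≤ w := Nat.pow_pos (by omega)
  have hq : p ^ μ = p * w := by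
    rw [hw]
    conv_lhs => rw [show μ = (μ - 1) + 1 by omega]
    rw [pow_succ, mul_comm]
  have hq1 : 2 ≤ p ^ μ := by
    rw [hq]
    nlinarith
  have hp1 : (p - 1) * w = p ^ μ - w := by
    rw [hq, Nat.sub_mul, one_mul]
  have hwq : w ≤ p ^ μ := by
    rw [hq]
    nlinarith
  -- the relation
  obtain ⟨a, haD, ha0, hrel⟩ := exists_relation (K := K)
    (fun x : Fin w × Fin p => Bt p μ N Q t x.1 x.2)
    ((w - 1) * p ^ μ + (p - 1) * w * (s + 1)) (w + s)
    (fun x => natDegree_Bt_le p μ s hp2 hμ N Q hN hQ hQ0 t x.1 x.2 x.1.2 x.2.2) (by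
      rw [Fintype.card_prod, Fintype.card_fin, Fintype.card_fin, hp1]
      obtain ⟨d, hd⟩ : ∃ d, p ^ μ = w + d := ⟨p ^ μ - w, by omega⟩
      obtain ⟨v, hv⟩ : ∃ v, w = v + 1 := ⟨w - 1, by omega⟩
      have hwp : w * p = w + d := by rw [← hd, hq, mul_comm]
      rw [hwp, hd, Nat.add_sub_cancel_left, hv, Nat.add_sub_cancel]
      have h2 : 2 ≤ v + 1 + d := by omega
      nlinarith)
  have hFne := F_ne_zero p μ s hp2 hμ N Q hN hQ hQ0 a ha0
  have hFdeg := natDegree_F_le p μ s (w + s) hp2 hμ N Q hN hQ hQ0 a haD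
  set F : K[X] := ∑ x, Ft p μ N Q (a x) x.1 x.2 with hF
  -- every x of the set is a root of F
  have hroot : ∀ x : K, Q.eval x ≠ 0 → ∑ i ∈ range (2 * μ), (N.eval x / Q.eval x) ^ p ^ i = t →
      F.eval x = 0 := by
    intro x hx htr
    set r := N.eval x / Q.eval x with hr
    set g := ∑ i ∈ range μ, r ^ p ^ i with hg
    have hGx := eval_Gp p μ hp2 N Q x hx
    rw [← hr, ← hg, ← hw] at hGx
    have hgq : g ^ p ^ μ = ∑ i ∈ range μ, r ^ p ^ (μ + i) := by
      rw [hg, sum_pow_char_pow]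
      refine Finset.sum_congr rfl fun i _ => ?_
      rw [← pow_mul]
      congr 1
      rw [pow_add, mul_comm]
    have hgt : g + g ^ p ^ μ = t := by
      rw [hgq, ← htr, two_mul, Finset.sum_range_add]
    have htq : t ^ p ^ μ = t := by
      have : ∀ n : ℕ, t ^ p ^ n = t := by
        intro n
        induction n with
        | zero => simp
        | succ n ih => rw [pow_succ, pow_mul, ih, ht]
      exact this μ
    have hfix : (t - g) ^ p ^ μ = g := by
      rw [sub_pow_char_pow, htq, ← hgt]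
      ring
    have hxq : x ^ (p ^ μ * p ^ μ) = x := by
      rw [← sq, ← hK]
      exact FiniteField.pow_card x
    -- evaluate the relation
    have h1 : ∑ y : Fin w × Fin p, (a y).eval x * (x ^ ((y.1 : ℕ) * p ^ μ) *
        ((t - g) * Q.eval x ^ w) ^ (y.2 : ℕ) * Q.eval x ^ ((p - 1 - (y.2 : ℕ)) * w)) = 0 := by
      have h2 := congrArg (Polynomial.eval x) hrel
      rw [Polynomial.eval_finsetSum, eval_zero] at h2
      rw [← h2]
      refine Finset.sum_congr rfl fun y _ => ?_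
      unfold Bt
      simp only [eval_mul, eval_pow, eval_X, eval_sub, eval_C]
      rw [hGx, ← hw, ← sub_mul]
    have h3 : ∀ y : Fin w × Fin p, (a y).eval x * (x ^ ((y.1 : ℕ) * p ^ μ) *
        ((t - g) * Q.eval x ^ w) ^ (y.2 : ℕ) * Q.eval x ^ ((p - 1 - (y.2 : ℕ)) * w)) =
        ((a y).eval x * x ^ ((y.1 : ℕ) * p ^ μ) * (t - g) ^ (y.2 : ℕ)) * Q.eval x ^ ((p - 1) * w) := by
      intro y
      have hy := y.2.2
      obtain ⟨d, hd⟩ : ∃ d, p - 1 = (y.2 : ℕ) + d := ⟨p - 1 - (y.2 : ℕ), by omega⟩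
      rw [hd, Nat.add_sub_cancel_left, mul_pow, ← pow_mul, add_mul, pow_add, mul_comm w (y.2 : ℕ)]
      ring
    rw [Finset.sum_congr rfl fun y _ => h3 y, ← Finset.sum_mul] at h1
    have h4 : ∑ y : Fin w × Fin p, (a y).eval x * x ^ ((y.1 : ℕ) * p ^ μ) * (t - g) ^ (y.2 : ℕ) = 0 :=
      (mul_eq_zero.mp h1).resolve_right (pow_ne_zero _ hx)
    have h5 : ∑ y : Fin w × Fin p, (a y).eval x ^ p ^ μ * x ^ (y.1 : ℕ) * g ^ (y.2 : ℕ) = 0 := by
      have h6 := congrArg (· ^ p ^ μ) h4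
      simp only [zero_pow (show p ^ μ ≠ 0 by omega)] at h6
      rw [sum_pow_char_pow] at h6
      rw [← h6]
      refine Finset.sum_congr rfl fun y _ => ?_
      rw [mul_pow, mul_pow, ← pow_mul x, ← pow_mul (t - g), mul_comm (y.2 : ℕ) (p ^ μ),
        pow_mul (t - g), hfix, mul_assoc (y.1 : ℕ), mul_comm (y.1 : ℕ), pow_mul x, hxq]
    rw [hF, Polynomial.eval_finsetSum]
    have h7 : ∀ y : Fin w × Fin p, (Ft p μ N Q (a y) y.1 y.2).eval x =
        ((a y).eval x ^ p ^ μ * x ^ (y.1 : ℕ) * g ^ (y.2 : ℕ)) * Q.eval x ^ ((p - 1) * w) := by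
      intro y
      have hy := y.2.2
      obtain ⟨d, hd⟩ : ∃ d, p - 1 = (y.2 : ℕ) + d := ⟨p - 1 - (y.2 : ℕ), by omega⟩
      unfold Ft
      simp only [eval_mul, eval_pow, eval_X]
      rw [hGx, ← hw, hd, Nat.add_sub_cancel_left, mul_pow, ← pow_mul, add_mul, pow_add,
        mul_comm w (y.2 : ℕ)]
      ring
    rw [Finset.sum_congr rfl fun y _ => h7 y, ← Finset.sum_mul, h5, zero_mul]
  -- count the roots
  have hcard : (Finset.univ.filter fun x : K => Q.eval x ≠ 0 ∧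
      ∑ i ∈ range (2 * μ), (N.eval x / Q.eval x) ^ p ^ i = t).card ≤ F.natDegree := by
    apply Polynomial.card_le_degree_of_subset_roots
    intro x hx
    have hx' := Finset.mem_filter.mp (Finset.mem_val.mp hx)
    rw [Polynomial.mem_roots hFne]
    exact hroot x hx'.2.1 hx'.2.2
  refine hcard.trans (hFdeg.trans (le_of_eq ?_))
  ring

end Pool.Agent.H19.WE
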