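import Mathlib

/-!
# [H19 WE WA] Weil's bound, polynomial form of Stepanov's method: the auxiliary polynomials

`N, Q ∈ K[X]`, `deg Q = s`, `deg N = s + 1`, `R = N / Q`; `w = p ^ (μ - 1)`, `q0 = p ^ μ = p w`.
`Gp = Q^w ∑_{i < μ} R^(p^i)` has degree `w (s + 1)`.
`Ft a i j = a^q0 X^i Gp^j Q^((p - 1 - j) w)` has degree `q0 deg a + i + j w + (p - 1) w s`; for `i < w`, `j < p` these are
pairwise different, so a nontrivial sum of such terms is not zero.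
-/

namespace Pool.Agent.H19.WE

open Finset Polynomial

variable {K : Type} [Field K]

/-- numerator of `∑_{i < μ} (N / Q) ^ (p ^ i)` over `Q ^ (p ^ (μ - 1))` -/
noncomputable def Gp (p μ : ℕ) (N Q : K[X]) : K[X] :=
  ∑ i ∈ range μ, N ^ p ^ i * Q ^ (p ^ (μ - 1) - p ^ i)

/-- term of `F` -/
noncomputable def Ft (p μ : ℕ) (N Q a : K[X]) (i j : ℕ) : K[X] :=
  a ^ p ^ μ * X ^ i * Gp p μ N Q ^ j * Q ^ ((p - 1 - j) * p ^ (μ - 1))

/-- cofactor of `a` in the terms of `H` -/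
noncomputable def Bt (p μ : ℕ) (N Q : K[X]) (t : K) (i j : ℕ) : K[X] :=
  X ^ (i * p ^ μ) * (C t * Q ^ p ^ (μ - 1) - Gp p μ N Q) ^ j * Q ^ ((p - 1 - j) * p ^ (μ - 1))

theorem natDegree_Gp (p μ s : ℕ) (hp : 2 ≤ p) (hμ : 1 ≤ μ) (N Q : K[X]) (hN : N.natDegree = s + 1)
    (hQ : Q.natDegree = s) (hQ0 : Q ≠ 0) : (Gp p μ N Q).natDegree = p ^ (μ - 1) * (s + 1) := by
  have hN0 : N ≠ 0 := by
    rintro rfl
    simp at hN
  obtain ⟨m, rfl⟩ : ∃ m, μ = m + 1 := ⟨μ - 1, by omega⟩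
  rw [show m + 1 - 1 = m from rfl]
  unfold Gp
  rw [Finset.sum_range_succ, show m + 1 - 1 = m from rfl, Nat.sub_self, pow_zero, mul_one]
  have htop : (N ^ p ^ m).natDegree = p ^ m * (s + 1) := by
    rw [natDegree_pow, hN]
  have hpm : 0 < p ^ m := Nat.pow_pos (by omega)
  rw [Polynomial.natDegree_add_eq_right_of_natDegree_lt, htop]
  rw [htop]
  have hle : (∑ i ∈ range m, N ^ p ^ i * Q ^ (p ^ m - p ^ i)).natDegree ≤ p ^ m * (s + 1) - 1 := by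
    apply Polynomial.natDegree_sum_le_of_forall_le
    intro i hi
    rw [Finset.mem_range] at hi
    have h1 : p ^ i < p ^ m := Nat.pow_lt_pow_right (by omega) hi
    rw [natDegree_mul (pow_ne_zero _ hN0) (pow_ne_zero _ hQ0), natDegree_pow, natDegree_pow, hN, hQ]
    obtain ⟨d, hd⟩ : ∃ d, p ^ m = p ^ i + d := ⟨p ^ m - p ^ i, by omega⟩
    rw [hd, Nat.add_sub_cancel_left]
    have hd1 : 1 ≤ d := by omega
    have : p ^ i * (s + 1) + d * s + d = (p ^ i + d) * (s + 1) := by ring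
    omega
  have : 0 < p ^ m * (s + 1) := Nat.mul_pos hpm (by omega)
  omega

theorem Gp_ne_zero (p μ s : ℕ) (hp : 2 ≤ p) (hμ : 1 ≤ μ) (N Q : K[X]) (hN : N.natDegree = s + 1)
    (hQ : Q.natDegree = s) (hQ0 : Q ≠ 0) : Gp p μ N Q ≠ 0 := by
  intro h
  have h1 := natDegree_Gp p μ s hp hμ N Q hN hQ hQ0
  rw [h, natDegree_zero] at h1
  have : 0 < p ^ (μ - 1) * (s + 1) := Nat.mul_pos (Nat.pow_pos (by omega)) (by omega)
  omega

theorem natDegree_Ft (p μ s : ℕ) (hp : 2 ≤ p) (hμ : 1 ≤ μ) (N Q : K[X]) (hN : N.natDegree = s + 1)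
    (hQ : Q.natDegree = s) (hQ0 : Q ≠ 0) (a : K[X]) (ha : a ≠ 0) (i j : ℕ) (hj : j < p) :
    (Ft p μ N Q a i j).natDegree =
      p ^ μ * a.natDegree + (i + j * p ^ (μ - 1)) + (p - 1) * p ^ (μ - 1) * s := by
  have hG := Gp_ne_zero p μ s hp hμ N Q hN hQ hQ0
  unfold Ft
  rw [natDegree_mul (mul_ne_zero (mul_ne_zero (pow_ne_zero _ ha) (pow_ne_zero _ X_ne_zero))
      (pow_ne_zero _ hG)) (pow_ne_zero _ hQ0),
    natDegree_mul (mul_ne_zero (pow_ne_zero _ ha) (pow_ne_zero _ X_ne_zero)) (pow_ne_zero _ hG),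
    natDegree_mul (pow_ne_zero _ ha) (pow_ne_zero _ X_ne_zero), natDegree_pow, natDegree_pow,
    natDegree_pow, natDegree_pow, natDegree_X, natDegree_Gp p μ s hp hμ N Q hN hQ hQ0, hQ, mul_one]
  obtain ⟨d, hd⟩ : ∃ d, p - 1 = j + d := ⟨p - 1 - j, by omega⟩
  rw [hd, Nat.add_sub_cancel_left]
  ring

theorem Ft_zero (p μ : ℕ) (hp : 2 ≤ p) (N Q : K[X]) (i j : ℕ) : Ft p μ N Q 0 i j = 0 := by
  unfold Ft
  rw [zero_pow (Nat.pow_pos (by omega)).ne']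
  simp

theorem Ft_ne_zero (p μ s : ℕ) (hp : 2 ≤ p) (hμ : 1 ≤ μ) (N Q : K[X]) (hN : N.natDegree = s + 1)
    (hQ : Q.natDegree = s) (hQ0 : Q ≠ 0) (a : K[X]) (ha : a ≠ 0) (i j : ℕ) :
    Ft p μ N Q a i j ≠ 0 := by
  have hG := Gp_ne_zero p μ s hp hμ N Q hN hQ hQ0
  unfold Ft
  exact mul_ne_zero (mul_ne_zero (mul_ne_zero (pow_ne_zero _ ha) (pow_ne_zero _ X_ne_zero))
    (pow_ne_zero _ hG)) (pow_ne_zero _ hQ0)

/-- a nontrivial combination is not zero -/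
theorem F_ne_zero (p μ s : ℕ) (hp : 2 ≤ p) (hμ : 1 ≤ μ) (N Q : K[X]) (hN : N.natDegree = s + 1)
    (hQ : Q.natDegree = s) (hQ0 : Q ≠ 0) (a : Fin (p ^ (μ - 1)) × Fin p → K[X])
    (ha : ∃ x, a x ≠ 0) : ∑ x, Ft p μ N Q (a x) x.1 x.2 ≠ 0 := by
  classical
  have hdeg := Polynomial.degree_sum_eq_of_disjoint
    (fun x : Fin (p ^ (μ - 1)) × Fin p => Ft p μ N Q (a x) x.1 x.2) Finset.univ ?_
  · obtain ⟨x, hx⟩ := ha
    intro h0
    have h1 : (∑ x, Ft p μ N Q (a x) x.1 x.2).degree = ⊥ := by rw [h0, degree_zero]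
    rw [hdeg] at h1
    have h2 : (Ft p μ N Q (a x) x.1 x.2).degree ≤
        Finset.univ.sup fun i : Fin (p ^ (μ - 1)) × Fin p => (Ft p μ N Q (a i) i.1 i.2).degree :=
      Finset.le_sup (f := fun i : Fin (p ^ (μ - 1)) × Fin p => (Ft p μ N Q (a i) i.1 i.2).degree)
        (Finset.mem_univ x)
    rw [h1, le_bot_iff, degree_eq_bot] at h2
    exact Ft_ne_zero p μ s hp hμ N Q hN hQ hQ0 (a x) hx _ _ h2
  · intro x hx y hy hxy
    have hane : ∀ z : Fin (p ^ (μ - 1)) × Fin p, Ft p μ N Q (a z) z.1 z.2 ≠ 0 → a z ≠ 0 := by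
      intro z hz h0
      rw [h0, Ft_zero p μ hp] at hz
      exact hz rfl
    have hax := hane x hx.2
    have hay := hane y hy.2
    intro heq
    simp only [Function.comp] at heq
    have h3 : (Ft p μ N Q (a x) x.1 x.2).natDegree = (Ft p μ N Q (a y) y.1 y.2).natDegree :=
      natDegree_eq_of_degree_eq heq
    rw [natDegree_Ft p μ s hp hμ N Q hN hQ hQ0 _ hax _ _ x.2.2,
      natDegree_Ft p μ s hp hμ N Q hN hQ hQ0 _ hay _ _ y.2.2] at h3
    have h4 : p ^ μ * (a x).natDegree + (x.1.1 + x.2.1 * p ^ (μ - 1)) =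
        p ^ μ * (a y).natDegree + (y.1.1 + y.2.1 * p ^ (μ - 1)) := by omega
    have hq : p ^ μ = p * p ^ (μ - 1) := by
      conv_lhs => rw [show μ = (μ - 1) + 1 by omega]
      rw [pow_succ, mul_comm]
    have hlt : ∀ z : Fin (p ^ (μ - 1)) × Fin p, z.1.1 + z.2.1 * p ^ (μ - 1) < p ^ μ := by
      intro z
      have h5 := z.1.2
      have h6 := z.2.2
      calc z.1.1 + z.2.1 * p ^ (μ - 1) < p ^ (μ - 1) + z.2.1 * p ^ (μ - 1) := by omega
        _ = (z.2.1 + 1) * p ^ (μ - 1) := by ring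
        _ ≤ p * p ^ (μ - 1) := Nat.mul_le_mul_right _ h6
        _ = p ^ μ := hq.symm
    have h5 : x.1.1 + x.2.1 * p ^ (μ - 1) = y.1.1 + y.2.1 * p ^ (μ - 1) := by
      have h6 := congrArg (· % p ^ μ) h4
      simp only [Nat.mul_add_mod] at h6
      rwa [Nat.mod_eq_of_lt (hlt x), Nat.mod_eq_of_lt (hlt y)] at h6
    have h7 : x.1.1 = y.1.1 := by
      have h6 := congrArg (· % p ^ (μ - 1)) h5
      simp only [Nat.add_mul_mod_self_right] at h6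
      rwa [Nat.mod_eq_of_lt x.1.2, Nat.mod_eq_of_lt y.1.2] at h6
    have h8 : x.2.1 = y.2.1 := by
      rw [h7] at h5
      exact Nat.eq_of_mul_eq_mul_right (Nat.pow_pos (by omega)) (Nat.add_left_cancel h5)
    exact hxy (Prod.ext (Fin.ext h7) (Fin.ext h8))

theorem natDegree_F_le (p μ s D : ℕ) (hp : 2 ≤ p) (hμ : 1 ≤ μ) (N Q : K[X]) (hN : N.natDegree = s + 1)
    (hQ : Q.natDegree = s) (hQ0 : Q ≠ 0) (a : Fin (p ^ (μ - 1)) × Fin p → K[X])
    (haD : ∀ x, (a x).natDegree ≤ D) :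
    (∑ x, Ft p μ N Q (a x) x.1 x.2).natDegree ≤ p ^ μ * D + p ^ μ + p ^ μ * s := by
  have hq : p ^ μ = p * p ^ (μ - 1) := by
    conv_lhs => rw [show μ = (μ - 1) + 1 by omega]
    rw [pow_succ, mul_comm]
  apply Polynomial.natDegree_sum_le_of_forall_le
  intro x _
  by_cases h0 : a x = 0
  · rw [h0, Ft_zero p μ hp, natDegree_zero]
    exact Nat.zero_le _
  · rw [natDegree_Ft p μ s hp hμ N Q hN hQ hQ0 _ h0 _ _ x.2.2]
    have h1 : x.1.1 + x.2.1 * p ^ (μ - 1) ≤ p ^ μ := by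
      have h5 := x.1.2
      have h6 := x.2.2
      calc x.1.1 + x.2.1 * p ^ (μ - 1) ≤ p ^ (μ - 1) + x.2.1 * p ^ (μ - 1) := by omega
        _ = (x.2.1 + 1) * p ^ (μ - 1) := by ring
        _ ≤ p * p ^ (μ - 1) := Nat.mul_le_mul_right _ h6
        _ = p ^ μ := hq.symm
    have h2 : (p - 1) * p ^ (μ - 1) * s ≤ p ^ μ * s := by
      apply Nat.mul_le_mul_right
      rw [hq]
      exact Nat.mul_le_mul_right _ (Nat.sub_le _ _)
    have h3 : p ^ μ * (a x).natDegree ≤ p ^ μ * D := Nat.mul_le_mul_left _ (haD x)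
    omega

theorem natDegree_Bt_le (p μ s : ℕ) (hp : 2 ≤ p) (hμ : 1 ≤ μ) (N Q : K[X]) (hN : N.natDegree = s + 1)
    (hQ : Q.natDegree = s) (hQ0 : Q ≠ 0) (t : K) (i j : ℕ) (hi : i < p ^ (μ - 1)) (hj : j < p) :
    (Bt p μ N Q t i j).natDegree ≤
      (p ^ (μ - 1) - 1) * p ^ μ + (p - 1) * p ^ (μ - 1) * (s + 1) := by
  unfold Bt
  have h1 : (X ^ (i * p ^ μ) : K[X]).natDegree ≤ (p ^ (μ - 1) - 1) * p ^ μ := by
    rw [natDegree_X_pow]
    exact Nat.mul_le_mul_right _ (by omega)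
  have h2 : (C t * Q ^ p ^ (μ - 1) - Gp p μ N Q).natDegree ≤ p ^ (μ - 1) * (s + 1) := by
    refine (natDegree_sub_le _ _).trans (max_le ?_ (natDegree_Gp p μ s hp hμ N Q hN hQ hQ0).le)
    refine (natDegree_C_mul_le _ _).trans ?_
    rw [natDegree_pow, hQ]
    exact Nat.mul_le_mul_left _ (by omega)
  have h3 : ((C t * Q ^ p ^ (μ - 1) - Gp p μ N Q) ^ j).natDegree ≤ j * (p ^ (μ - 1) * (s + 1)) :=
    natDegree_pow_le.trans (Nat.mul_le_mul_left _ h2)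
  have h4 : (Q ^ ((p - 1 - j) * p ^ (μ - 1))).natDegree ≤ (p - 1 - j) * p ^ (μ - 1) * (s + 1) := by
    rw [natDegree_pow, hQ]
    exact Nat.mul_le_mul_left _ (by omega)
  refine natDegree_mul_le.trans ((add_le_add (natDegree_mul_le.trans (add_le_add h1 h3)) h4).trans ?_)
  obtain ⟨d, hd⟩ : ∃ d, p - 1 = j + d := ⟨p - 1 - j, by omega⟩
  rw [hd, Nat.add_sub_cancel_left]
  apply le_of_eq
  ring

end Pool.Agent.H19.WE
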